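import Pool.Agent.T9h3.LN.Spec

/-!
# Project LN, piece (A1): the splitting of a lattice over the ring of the `r`-th roots of unity
-/

set_option autoImplicit false

namespace Pool.Agent.T9h67.LN

open Pool.Agent.T9h3.LN Finset

/-- Coordinates with respect to `1, ζ, ..., ζ ^ (r - 2)`, extended periodically. -/
theorem coords {R : Type} [CommRing R] {r : ℕ} (hr : 2 ≤ r) (ζ : R)
    (hζ : ∑ i ∈ range r, ζ ^ i = 0) (pb : Module.Basis (Fin (r - 1)) ℤ R)
    (hpb : ∀ i, pb i = ζ ^ (i : ℕ)) :
    ∃ (c : ℕ → R →ₗ[ℤ] ℤ) (d : R →ₗ[ℤ] ℤ), (∀ i a, c (i + 1) (ζ * a) = c i a + d a) ∧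
      (∀ i, c (i + r) = c i) ∧ ∀ a, ∑ i ∈ range r, c i a • ζ ^ i = a := by
  classical
  let c : ℕ → R →ₗ[ℤ] ℤ := fun i => if h : i % r < r - 1 then pb.coord ⟨i % r, h⟩ else 0
  have hcv : ∀ i (j : Fin (r - 1)), c i (pb j) = if i % r = (j : ℕ) then 1 else 0 := by
    intro i j
    simp only [c]
    by_cases h : i % r < r - 1
    · rw [dif_pos h]
      simp only [Module.Basis.coord_apply, Module.Basis.repr_self]
      rw [Finsupp.single_apply]
      by_cases h' : i % r = (j : ℕ)
      · rw [if_pos h', if_pos (Fin.ext h'.symm)]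
      · rw [if_neg h', if_neg (fun e => h' (by rw [e]))]
    · rw [dif_neg h]
      have : ¬ i % r = (j : ℕ) := fun e => h (e ▸ j.2)
      rw [if_neg this]
      rfl
  have hper : ∀ i, c (i + r) = c i := by
    intro i
    simp only [c]
    have : (i + r) % r = i % r := Nat.add_mod_right i r
    simp only [this]
  have hsum : ∀ a, ∑ i ∈ range r, c i a • ζ ^ i = a := by
    intro a
    have key : (∑ i ∈ range r, (c i).smulRight (ζ ^ i)) = LinearMap.id := by
      apply pb.ext
      intro j
      rw [LinearMap.sum_apply]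
      simp only [LinearMap.smulRight_apply, hcv, LinearMap.id_apply]
      rw [Finset.sum_eq_single (j : ℕ)]
      · rw [Nat.mod_eq_of_lt (by have := j.2; omega), if_pos rfl, one_smul, hpb]
      · intro i hi hij
        rw [Nat.mod_eq_of_lt (mem_range.mp hi), if_neg hij, zero_smul]
      · intro h
        exact absurd (mem_range.mpr (by have := j.2; omega)) h
    have := LinearMap.congr_fun key a
    rw [LinearMap.sum_apply] at this
    simpa using this
  have hcv' : ∀ i j, j < r - 1 → c i (ζ ^ j) = if i % r = j then 1 else 0 := by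
    intro i j hj
    have := hcv i ⟨j, hj⟩
    rwa [hpb] at this
  have htop : ∀ i, c i (ζ ^ (r - 1)) = if i % r = r - 1 then 0 else -1 := by
    intro i
    have e : ζ ^ (r - 1) = - ∑ j ∈ range (r - 1), ζ ^ j := by
      have h1 : r = (r - 1) + 1 := by omega
      rw [h1, Finset.sum_range_succ] at hζ
      exact eq_neg_of_add_eq_zero_right hζ
    rw [e, map_neg, map_sum]
    have : ∑ j ∈ range (r - 1), c i (ζ ^ j) = ∑ j ∈ range (r - 1), if i % r = j then (1 : ℤ) else 0 :=
      Finset.sum_congr rfl fun j hj => hcv' i j (mem_range.mp hj)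
    rw [this, Finset.sum_ite_eq]
    have hm : i % r < r := Nat.mod_lt _ (by omega)
    by_cases h : i % r = r - 1
    · rw [if_pos h, if_neg (by rw [mem_range]; omega), neg_zero]
    · rw [if_neg h, if_pos (by rw [mem_range]; omega)]
  refine ⟨c, - c (r - 2), ?_, hper, hsum⟩
  intro i a
  have key : (c (i + 1)).comp (LinearMap.mulLeft ℤ ζ) = c i + - c (r - 2) := by
    apply pb.ext
    intro j
    have hj := j.2
    rw [LinearMap.comp_apply, LinearMap.mulLeft_apply, LinearMap.add_apply, LinearMap.neg_apply,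
      hpb, ← pow_succ', hcv' i j hj, hcv' (r - 2) j hj]
    have hm : i % r < r := Nat.mod_lt _ (by omega)
    have hm2 : (r - 2) % r = r - 2 := Nat.mod_eq_of_lt (by omega)
    have hs : (i + 1) % r = if i % r = r - 1 then 0 else i % r + 1 := by
      rw [Nat.add_mod, Nat.mod_eq_of_lt (show 1 < r by omega)]
      split_ifs with h
      · rw [h, Nat.sub_add_cancel (by omega), Nat.mod_self]
      · exact Nat.mod_eq_of_lt (by omega)
    rw [hm2]
    by_cases h : (j : ℕ) + 1 = r - 1
    · rw [h, htop, hs]
      by_cases h1 : i % r = r - 1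
      · rw [if_pos h1, if_neg (by omega), if_neg (by omega), if_pos (by omega)]
        norm_num
      · rw [if_neg h1]
        by_cases h2 : i % r + 1 = r - 1
        · rw [if_pos h2, if_pos (by omega), if_pos (by omega)]
          norm_num
        · rw [if_neg h2, if_neg (by omega), if_pos (by omega)]
          norm_num
    · rw [hcv' _ _ (by omega), hs]
      by_cases h1 : i % r = r - 1
      · rw [if_pos h1, if_neg (by omega), if_neg (by omega), if_neg (by omega)]
        norm_num
      · rw [if_neg h1]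
        by_cases h2 : i % r = (j : ℕ)
        · rw [if_pos (by omega), if_pos (by omega), if_neg (by omega)]
          norm_num
        · rw [if_neg (by omega), if_neg (by omega), if_neg (by omega)]
          norm_num
  have := LinearMap.congr_fun key a
  simpa using this

/-- The general form: the lattice is a projective module over a ring with coordinates. -/
theorem split_of {R L : Type} [CommRing R] [AddCommGroup L] [Module R L] [Module.Projective R L]
    [Module.Finite R L] {r : ℕ} (ζ : R) (τ : L ≃+ L) (hτ : ∀ x, τ x = ζ • x)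
    (c : ℕ → R →ₗ[ℤ] ℤ) (d : R →ₗ[ℤ] ℤ) (h1 : ∀ i a, c (i + 1) (ζ * a) = c i a + d a)
    (h2 : ∀ i, c (i + r) = c i) (h3 : ∀ a, ∑ i ∈ range r, c i a • ζ ^ i = a) :
    ∃ (s : ℕ → L →+ L) (δ : L →+ L), (∀ i x, s (i + 1) (τ x) = s i x + δ x) ∧
      (∀ i, s (i + r) = s i) ∧ ∀ x, ∑ i ∈ Finset.range r, (τ^[i]) (s i x) = x := by
  classical
  obtain ⟨n, f, hf⟩ := Module.Finite.exists_fin' R L
  obtain ⟨h, hh⟩ := Module.projective_lifting_property f (LinearMap.id : L →ₗ[R] L) hf
  let y : Fin n → L := fun j => f (fun k => if j = k then 1 else 0)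
  have hfx : ∀ x, ∑ j, h x j • y j = x := by
    intro x
    have := LinearMap.congr_fun hh x
    rw [LinearMap.comp_apply, LinearMap.id_apply] at this
    conv_rhs => rw [← this, LinearMap.pi_apply_eq_sum_univ f (h x)]
  let g : (R →ₗ[ℤ] ℤ) → L →+ L := fun e =>
    { toFun := fun x => ∑ j, e (h x j) • y j
      map_zero' := by simp
      map_add' := fun a b => by
        simp only [map_add, Pi.add_apply, add_smul, Finset.sum_add_distrib] }
  have hg : ∀ e x, g e x = ∑ j, e (h x j) • y j := fun _ _ => rfl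
  have hit : ∀ i x, (τ^[i]) x = ζ ^ i • x := by
    intro i
    induction i with
    | zero => intro x; simp
    | succ i ih => intro x; rw [Function.iterate_succ_apply', ih, hτ, smul_smul, ← pow_succ']
  refine ⟨fun i => g (c i), g d, ?_, ?_, ?_⟩
  · intro i x
    rw [hg, hg, hg, ← Finset.sum_add_distrib]
    refine Finset.sum_congr rfl fun j _ => ?_
    rw [hτ, map_smul, Pi.smul_apply, smul_eq_mul, h1, add_smul]
  · intro i
    show g (c (i + r)) = g (c i)
    rw [h2]
  · intro x
    have : ∀ i ∈ range r, (τ^[i]) (g (c i) x) = ∑ j, (c i (h x j) • ζ ^ i) • y j := by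
      intro i _
      rw [hit, hg, Finset.smul_sum]
      refine Finset.sum_congr rfl fun j _ => ?_
      rw [smul_comm, smul_assoc]
    rw [Finset.sum_congr rfl this, Finset.sum_comm]
    conv_rhs => rw [← hfx x]
    refine Finset.sum_congr rfl fun j _ => ?_
    rw [← Finset.sum_smul, h3]

open NumberField in
theorem split_aux (K L : Type) [Field K] [NumberField K] [AddCommGroup L] [Module.Free ℤ L]
    [Module.Finite ℤ L] (r : ℕ) (hr : r.Prime) [NeZero r] [IsCyclotomicExtension {r} ℚ K]
    (τ : L ≃+ L) (hτ : ∀ x, ∑ i ∈ Finset.range r, (τ^[i]) x = 0) :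
    ∃ (s : ℕ → L →+ L) (δ : L →+ L), (∀ i x, s (i + 1) (τ x) = s i x + δ x) ∧
      (∀ i, s (i + r) = s i) ∧ ∀ x, ∑ i ∈ Finset.range r, (τ^[i]) (s i x) = x := by
  have : Fact r.Prime := ⟨hr⟩
  have hz : IsPrimitiveRoot (IsCyclotomicExtension.zeta r ℚ K) r :=
    IsCyclotomicExtension.zeta_spec r ℚ K
  let ζ : 𝓞 K := hz.toInteger
  let pb : PowerBasis ℤ (𝓞 K) := hz.integralPowerBasis
  have hgen : pb.gen = ζ := hz.integralPowerBasis_gen
  have hdim : pb.dim = r - 1 := by
    rw [← Nat.totient_prime hr]
    exact hz.integralPowerBasis_dim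
  have hmin : minpoly ℤ ζ = Polynomial.cyclotomic r ℤ := by
    rw [Polynomial.cyclotomic_eq_minpoly hz hr.pos]
    exact (minpoly.algebraMap_eq (RingOfIntegers.coe_injective) ζ).symm
  let T : Module.End ℤ L := τ.toAddMonoidHom.toIntLinearMap
  have hT : ∀ x, T x = τ x := fun _ => rfl
  have hTi : ∀ i x, (T ^ i) x = (τ^[i]) x := by
    intro i
    induction i with
    | zero => intro x; simp
    | succ i ih =>
      intro x
      rw [pow_succ', Module.End.mul_apply, ih, Function.iterate_succ_apply', hT]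
  have hev : Polynomial.aeval T (minpoly ℤ pb.gen) = 0 := by
    rw [hgen, hmin, Polynomial.cyclotomic_prime, map_sum]
    ext x
    simp only [map_pow, Polynomial.aeval_X, LinearMap.sum_apply, hTi, LinearMap.zero_apply]
    exact hτ x
  let φ : 𝓞 K →ₐ[ℤ] Module.End ℤ L := pb.lift T hev
  have hφ : φ ζ = T := by
    rw [← hgen]
    exact pb.lift_gen T hev
  let _ : Module (𝓞 K) L := Module.compHom L φ.toRingHom
  have hsm : ∀ (a : 𝓞 K) (x : L), a • x = φ a x := fun _ _ => rfl
  have : IsScalarTower ℤ (𝓞 K) L := ⟨fun n a x => by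
    rw [hsm, hsm, map_zsmul]
    rfl⟩
  have : Module.Finite (𝓞 K) L := Module.Finite.of_restrictScalars_finite ℤ (𝓞 K) L
  have htf : Module.IsTorsionFree (𝓞 K) L := by
    apply Module.IsTorsionFree.of_smul_eq_zero
    intro a x hax
    by_contra hcon
    push Not at hcon
    obtain ⟨n, hn, b, hb⟩ := (Algebra.IsAlgebraic.isAlgebraic (R := ℤ) a).exists_nonzero_dvd
      (mem_nonZeroDivisors_of_ne_zero hcon.1)
    have h1 : (n : ℤ) • x = 0 := by
      have h2 : (algebraMap ℤ (𝓞 K) n) • x = 0 := by
        rw [hb, mul_comm, mul_smul, hax, smul_zero]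
      rwa [algebraMap_smul] at h2
    rcases smul_eq_zero.mp h1 with h | h
    · exact hn h
    · exact hcon.2 h
  have : Module.Flat (𝓞 K) L := inferInstance
  have : Module.FinitePresentation (𝓞 K) L := Module.finitePresentation_of_finite (𝓞 K) L
  have : Module.Projective (𝓞 K) L := Module.Flat.projective_of_finitePresentation
  have hsum : ∑ i ∈ range r, ζ ^ i = 0 := by
    have := minpoly.aeval ℤ ζ
    rw [hmin, Polynomial.cyclotomic_prime, map_sum] at this
    simpa using this
  obtain ⟨c, d, h1, h2, h3⟩ := coords hr.two_le ζ hsum (pb.basis.reindex (finCongr hdim)) (by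
    intro i
    simp [hgen])
  exact split_of ζ τ (fun x => by rw [hsm, hφ, hT]) c d h1 h2 h3

theorem cyc (r : ℕ) [NeZero r] : IsCyclotomicExtension {r} ℚ (CyclotomicField r ℚ) := by
  have : NeZero ((r : ℕ) : ℚ) := inferInstance
  have := CyclotomicField.isCyclotomicExtension r ℚ
  convert this
  · rfl
  · exact Subsingleton.elim _ _

theorem split : S_Split := by
  intro L _ _ _ r hr τ hτ
  have : NeZero r := ⟨hr.ne_zero⟩
  have := cyc r
  exact split_aux (CyclotomicField r ℚ) L r hr τ hτ

end Pool.Agent.T9h67.LN
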